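import Pool.Agent.Helper14.VamosProof

/-!
# The Vámos matroid has no second symmetric power

Full (negative) answer to Q1 of MP_60e9e7_co.
-/

set_option autoImplicit false

namespace Pool.Agent.Results.MP_60e9e7_co.NoSymmetricPower

open Pool.Agent.Helper14.Vamos

/-- There is no matroid on the unordered pairs of the eight elements of the Vámos matroid that is
a second symmetric power of the Vámos matroid. -/
theorem result : ¬ ∃ N : Matroid (Sym2 (Fin 8)), IsSymmetricPower vamos N :=
  fun ⟨N, hN⟩ => no_power N hN

end Pool.Agent.Results.MP_60e9e7_co.NoSymmetricPower
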